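import Pool.Agent.TH600.YT.Final
import Pool.Agent.TH889.J836

/-!
# The Clifford solid torus does not attain the Euclidean Yamabe invariant of the solid torus

The region `C` enclosed by the stereographic image of the Clifford torus is the solid torus of
revolution with core radius `√2` and tube radius `1` (first part). There is another solid torus of
revolution (core radius `R`, tube radius `1`) whose Yamabe quotient is strictly larger.
-/

set_option autoImplicit false

open MeasureTheory Real Set
open scoped ContDiff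

namespace Pool.Agent.Results.MP_e875d0_gt.CliffordNotExtremal

open Pool.Agent.TH600.YT

theorem result :
    (∀ p : ℝ × ℝ × ℝ,
      (∃ x₁ x₂ x₃ x₄ : ℝ, x₁ ^ 2 + x₂ ^ 2 = 1 / 2 ∧ x₃ ^ 2 + x₄ ^ 2 = 1 / 2 ∧
        stereo x₁ x₂ x₃ x₄ = p) ↔
      (√(p.1 ^ 2 + p.2.1 ^ 2) - √2) ^ 2 + p.2.2 ^ 2 = 1) ∧
    ∃ R : ℝ, 1 < R ∧ yamabeQ (√2) < yamabeQ R :=
  ⟨clifford_image, final_of Pool.Agent.TH889.J836.canon_pull⟩

end Pool.Agent.Results.MP_e875d0_gt.CliffordNotExtremal
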